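import Pool.Agent.Work.MP_d266e7_co.Full.Final

namespace Pool.Agent.Results.MP_d266e7_co.Mixed

/-- Every hypergraph whose edges have three, four or five vertices has a transversal of size at
most (9 n + 17 e3 + 14 e4 + 7 e5)/44, where ek is the number of edges with k vertices. -/
theorem result :
    ∀ n : ℕ, ∀ E : Finset (Finset (Fin n)), (∀ e ∈ E, 3 ≤ e.card ∧ e.card ≤ 5) →
      ∃ T : Finset (Fin n), (∀ e ∈ E, (e ∩ T).Nonempty) ∧
        44 * T.card ≤ 9 * n + 17 * (E.filter fun e => e.card = 3).card +
          14 * (E.filter fun e => e.card = 4).card + 7 * (E.filter fun e => e.card = 5).card :=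
  Pool.Agent.Work.MP_d266e7_co.Mix.top_export_mixed
    (Pool.Agent.Work.MP_d266e7_co.Mix.no_tmin (by omega)
      Pool.Agent.Work.MP_d266e7_co.Mix.cstar_final)

end Pool.Agent.Results.MP_d266e7_co.Mixed
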