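import Pool.Agent.Work.MP_d266e7_co.Greedy

namespace Pool.Agent.Results.MP_d266e7_co.ThreeFour

/-- Every 5-uniform hypergraph has a transversal of size at most (3n+4m)/18. -/
theorem result :
    ∀ n : ℕ, ∀ E : Finset (Finset (Fin n)), (∀ e ∈ E, e.card = 5) →
      ∃ T : Finset (Fin n), (∀ e ∈ E, (e ∩ T).Nonempty) ∧
        18 * T.card ≤ 3 * n + 4 * E.card :=
  fun _ _ hE => Pool.Agent.Work.MP_d266e7_co.export_bound hE _ _ _
    (Pool.Agent.Work.MP_d266e7_co.three_four hE)

end Pool.Agent.Results.MP_d266e7_co.ThreeFour
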