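import Pool.Agent.Work.MP_d266e7_co.C5.Final
import Mathlib.Data.Real.Basic
import Mathlib.Order.Bounds.Defs

namespace Pool.Agent.Results.MP_d266e7_co.TuzaConstant

/-- The least constant `c` such that every 5-uniform hypergraph with `n` vertices and `m` edges
has a transversal of size at most `c (n + m)` is `3 / 16`. -/
theorem result :
    IsLeast {c : ℝ | ∀ n : ℕ, ∀ E : Finset (Finset (Fin n)), (∀ e ∈ E, e.card = 5) →
      ∃ T : Finset (Fin n), (∀ e ∈ E, (e ∩ T).Nonempty) ∧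
        (T.card : ℝ) ≤ c * ((n : ℝ) + (E.card : ℝ))} (3 / 16) := by
  constructor
  · intro n E hE
    obtain ⟨T, h1, h2⟩ := Pool.Agent.Work.MP_d266e7_co.C5.export_inf 3 3 16
      (fun K hK => Pool.Agent.Work.MP_d266e7_co.C5.c5_inf hK) n E hE
    refine ⟨T, h1, ?_⟩
    have h3 : (16 : ℝ) * T.card ≤ 3 * n + 3 * E.card := by exact_mod_cast h2
    linarith
  · intro c hc
    obtain ⟨T, h1, h2⟩ := hc 10 {{0, 1, 2, 3, 4}, {0, 1, 5, 6, 7}, {0, 2, 5, 8, 9},
      {1, 3, 6, 8, 9}, {2, 4, 6, 7, 8}, {3, 4, 5, 7, 9}} (by decide +kernel)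
    have h6 : ({{0, 1, 2, 3, 4}, {0, 1, 5, 6, 7}, {0, 2, 5, 8, 9}, {1, 3, 6, 8, 9},
      {2, 4, 6, 7, 8}, {3, 4, 5, 7, 9}} : Finset (Finset (Fin 10))).card = 6 := by decide
    have key : ∀ a b : Fin 10, ∃ e ∈ ({{0, 1, 2, 3, 4}, {0, 1, 5, 6, 7}, {0, 2, 5, 8, 9},
      {1, 3, 6, 8, 9}, {2, 4, 6, 7, 8}, {3, 4, 5, 7, 9}} : Finset (Finset (Fin 10))),
        a ∉ e ∧ b ∉ e := by decide
    have h3 : 3 ≤ T.card := by
      by_contra hlt
      obtain ⟨U, hU, hc2⟩ := Finset.exists_subsuperset_card_eq (Finset.subset_univ T)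
        (show T.card ≤ 2 by omega) (by simp)
      obtain ⟨a, b, -, rfl⟩ := Finset.card_eq_two.1 hc2.2
      obtain ⟨e, he, ha, hb⟩ := key a b
      obtain ⟨v, hv⟩ := h1 e he
      obtain ⟨v1, v2⟩ := Finset.mem_inter.1 hv
      rcases Finset.mem_insert.1 (hU v2) with rfl | h
      · exact ha v1
      · exact hb (Finset.mem_singleton.1 h ▸ v1)
    rw [h6] at h2
    have h4 : (3 : ℝ) ≤ T.card := by exact_mod_cast h3
    push_cast at h2
    linarith

end Pool.Agent.Results.MP_d266e7_co.TuzaConstant
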